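import Pool.Agent.H674Z.AsdMain

set_option autoImplicit false

open Pool.Agent.H674Z.Asd

/-- For every `k ≥ 1` and `e ≥ 3`, hyperbolic space of dimension `d = k + 1` has asymptotic
dimension modulo `o(t ^ e)` growth at most `d - 1 = k`.  With `e = d ≥ 3` this refutes the
conjectured value `d`. -/
theorem Pool.Agent.Results.MP_28f3fb_gt.ACombCovers.result (k e : ℕ) (hk : 1 ≤ k) (he : 3 ≤ e)
    {V : Type*} (X : SimpleGraph V) (hc : X.Connected) (hd : BddDeg X) (hq : QuasiIsomHyp k X) :
    AsdimLE X (oPoly e) k :=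
  main hk e he X hc hd hq
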