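import Pool.Agent.H229Z.Asd.Main

namespace Pool.Agent.Results.MP_28f3fb_gt.AThree

open Pool.Agent.H229Z.Asd

/-- Hyperbolic 3-space `Hyp 2` has uniformly discrete nets, and every such net has asymptotic
dimension at most `2` (so not `3`) modulo the family `o(poly(3))`. -/
theorem result : (∃ Z : Set (Hyp 2), IsNet Z) ∧
    ∀ Z : Set (Hyp 2), IsNet Z → asdim (oPoly 3) Z ≤ 2 := main

end Pool.Agent.Results.MP_28f3fb_gt.AThree
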